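import Pool.Agent.H342_Semi.Ore

/-!
The growth of a group generated by a subsemigroup in terms of the growth of the subsemigroup.
-/

set_option autoImplicit false

namespace Pool.Agent.H342_Semi

open Pool.Agent.H342_Gap

section

variable {G : Type} [Group G] [DecidableEq G]

theorem card_tr (F : Finset G) (x : G) : (F.image (· * x)).card = F.card :=
  Finset.card_image_of_injective _ (mul_left_injective x)

theorem tr_inv (F : Finset G) (x : G) :
    (F.image (· * x⁻¹) \ F).card = (F.image (· * x) \ F).card := by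
  have h1 : (F.image (· * x⁻¹) \ F).card = (F \ F.image (· * x)).card := by
    have : (F \ F.image (· * x)).image (· * x⁻¹) = F.image (· * x⁻¹) \ F := by
      ext y
      simp only [Finset.mem_image, Finset.mem_sdiff]
      constructor
      · rintro ⟨z, ⟨hz, hz'⟩, rfl⟩
        refine ⟨⟨z, hz, rfl⟩, fun hc => hz' ⟨z * x⁻¹, hc, by simp⟩⟩
      · rintro ⟨⟨z, hz, rfl⟩, hy⟩
        refine ⟨z, ⟨hz, ?_⟩, rfl⟩
        rintro ⟨w, hw, hwz⟩
        apply hy
        rw [← hwz]
        simpa using hw
    rw [← this, card_tr]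
  rw [h1]
  have h2 := Finset.card_sdiff_add_card_inter F (F.image (· * x))
  have h3 := Finset.card_sdiff_add_card_inter (F.image (· * x)) F
  rw [card_tr, Finset.inter_comm] at h3
  omega

theorem tr_list {F : Finset G} {c d : ℕ} (l : List G)
    (h : ∀ x ∈ l, c * (F.image (· * x) \ F).card ≤ d) :
    c * (F.image (· * l.prod) \ F).card ≤ l.length * d := by
  induction l with
  | nil => simp
  | cons x l ih =>
    have h1 := ih fun y hy => h y (List.mem_cons_of_mem _ hy)
    have h2 := h x List.mem_cons_self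
    rw [List.prod_cons]
    have h3 : F.image (· * (x * l.prod)) \ F ⊆
        ((F.image (· * x) \ F).image (· * l.prod)) ∪ (F.image (· * l.prod) \ F) := by
      intro y hy
      rw [Finset.mem_sdiff, Finset.mem_image] at hy
      obtain ⟨⟨z, hz, rfl⟩, hy⟩ := hy
      rw [Finset.mem_union]
      by_cases hzx : z * x ∈ F
      · right
        rw [Finset.mem_sdiff, Finset.mem_image]
        exact ⟨⟨z * x, hzx, by rw [mul_assoc]⟩, hy⟩
      · left
        rw [Finset.mem_image]
        refine ⟨z * x, ?_, by rw [mul_assoc]⟩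
        rw [Finset.mem_sdiff, Finset.mem_image]
        exact ⟨⟨z, hz, rfl⟩, hzx⟩
    have h4 := (Finset.card_le_card h3).trans (Finset.card_union_le _ _)
    rw [card_tr] at h4
    rw [List.length_cons]
    calc c * (F.image (· * (x * l.prod)) \ F).card ≤
        c * ((F.image (· * x) \ F).card + (F.image (· * l.prod) \ F).card) := Nat.mul_le_mul_left _ h4
      _ = c * (F.image (· * x) \ F).card + c * (F.image (· * l.prod) \ F).card := by ring
      _ ≤ d + l.length * d := Nat.add_le_add h2 h1
      _ = _ := by ring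

theorem ball_le_sq {X : Set G} {F : Finset G} (hF : F.Nonempty) {n : ℕ}
    (h : ∀ x ∈ X, (n + 1) * (F.image (· * x) \ F).card ≤ F.card) : gro X n ≤ F.card ^ 2 := by
  have hsub : Ball X n ⊆ ((Finset.image₂ (fun u v => u⁻¹ * v) F F : Finset G) : Set G) := by
    rintro g ⟨l, hl, hX, rfl⟩
    have h1 : ∀ x ∈ l, (n + 1) * (F.image (· * x) \ F).card ≤ F.card := by
      intro x hx
      rcases hX x hx with h2 | h2
      · exact h x h2
      · have h3 := h _ h2
        rwa [tr_inv] at h3
    have h2 := tr_list l h1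
    have h3 : (F.image (· * l.prod) \ F).card < F.card := by
      have hFp := hF.card_pos
      have h4 : (n + 1) * (F.image (· * l.prod) \ F).card < (n + 1) * F.card :=
        h2.trans_lt (Nat.mul_lt_mul_of_pos_right (by omega) hFp)
      exact lt_of_mul_lt_mul_left h4 (Nat.zero_le _)
    have h4 : (F.image (· * l.prod) ∩ F).Nonempty := by
      rw [Finset.nonempty_iff_ne_empty]
      intro he
      have h5 := Finset.card_sdiff_add_card_inter (F.image (· * l.prod)) F
      rw [he, card_tr, Finset.card_empty] at h5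
      omega
    obtain ⟨v, hv⟩ := h4
    rw [Finset.mem_inter, Finset.mem_image] at hv
    obtain ⟨⟨u, hu, huv⟩, hv⟩ := hv
    rw [Finset.mem_coe, Finset.mem_image₂]
    exact ⟨u, hu, v, hv, by rw [← huv]; group⟩
  have h1 := Set.ncard_le_ncard hsub (Finset.finite_toSet _)
  rw [Set.ncard_coe_finset] at h1
  calc gro X n ≤ (Finset.image₂ (fun u v => u⁻¹ * v) F F).card := h1
    _ ≤ F.card * F.card := Finset.card_image₂_le _ _ _
    _ = F.card ^ 2 := by ring

/-- if a set `F` is nearly invariant then it controls the balls of radius `n` in the group -/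
theorem gro_le_sq_set {X : Set G} {F F' : Finset G} (hF : F.Nonempty) (hsub : F ⊆ F')
    (hX : ∀ x ∈ X, ∀ g ∈ F, g * x ∈ F') {n : ℕ} (h : (n + 1) * F'.card ≤ (n + 2) * F.card) :
    gro X n ≤ F.card ^ 2 := by
  apply ball_le_sq hF
  intro a ha
  have hsub2 : F.image (· * a) \ F ⊆ F' \ F := by
    intro y hy
    rw [Finset.mem_sdiff, Finset.mem_image] at hy
    obtain ⟨⟨z, hz, rfl⟩, hy⟩ := hy
    rw [Finset.mem_sdiff]
    exact ⟨hX a ha z hz, hy⟩
  have h1 := Finset.card_le_card hsub2
  rw [Finset.card_sdiff_of_subset hsub] at h1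
  have h2 := Finset.card_le_card hsub
  calc (n + 1) * (F.image (· * a) \ F).card ≤ (n + 1) * (F'.card - F.card) := Nat.mul_le_mul_left _ h1
    _ = (n + 1) * F'.card - (n + 1) * F.card := Nat.mul_sub _ _ _
    _ ≤ (n + 2) * F.card - (n + 1) * F.card := Nat.sub_le_sub_right h _
    _ = F.card := by
      rw [← Nat.sub_mul]
      simp

end

/-- the same for the ball of radius `m` in a semigroup -/
theorem gro_le_sq {S : Type} [Semigroup S] {A : Set S} (hA : A.Finite) {G : Type} [Group G] {f : S → G}
    (hf : Function.Injective f) (hmul : ∀ x y, f (x * y) = f x * f y) {m n : ℕ} (hm : 1 ≤ sgro A m)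
    (h : (n + 1) * sgro A (m + 1) ≤ (n + 2) * sgro A m) : gro (f '' A) n ≤ sgro A m ^ 2 := by
  classical
  set F : Finset G := ((SBall_finite hA m).image f).toFinset with hFdef
  have hFc : ∀ y, y ∈ F ↔ ∃ x ∈ SBall A m, f x = y := by
    intro y
    rw [hFdef, Set.Finite.mem_toFinset]
    rfl
  have hcard : F.card = sgro A m := by
    unfold sgro
    rw [← Set.ncard_image_of_injective _ hf, hFdef, Set.ncard_eq_toFinset_card _ ((SBall_finite hA m).image f)]
  set F' : Finset G := ((SBall_finite hA (m + 1)).image f).toFinset with hFdef'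
  have hFc' : ∀ y, y ∈ F' ↔ ∃ x ∈ SBall A (m + 1), f x = y := by
    intro y
    rw [hFdef', Set.Finite.mem_toFinset]
    rfl
  have hcard' : F'.card = sgro A (m + 1) := by
    unfold sgro
    rw [← Set.ncard_image_of_injective _ hf, hFdef',
      Set.ncard_eq_toFinset_card _ ((SBall_finite hA (m + 1)).image f)]
  rw [← hcard] at hm h ⊢
  rw [← hcard'] at h
  refine gro_le_sq_set (Finset.card_pos.1 (by omega)) ?_ ?_ h
  · intro y hy
    rw [hFc] at hy
    rw [hFc']
    obtain ⟨x, hx, rfl⟩ := hy
    exact ⟨x, SBall_mono A (Nat.le_succ m) hx, rfl⟩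
  · rintro _ ⟨a, ha, rfl⟩ z hz
    rw [hFc] at hz
    obtain ⟨x, ⟨k, hk, hx⟩, rfl⟩ := hz
    rw [hFc']
    exact ⟨x * a, ⟨k + 1, by omega, hx.mul ha⟩, hmul x a⟩

/-- finding a scale at which the growth is slow -/
theorem exists_scale {b : ℕ → ℕ} (hb1 : 1 ≤ b 1) {n L : ℕ}
    (h : (b (L + 1) : ℝ) < Real.exp (L / (n + 2))) :
    ∃ m, 1 ≤ m ∧ m ≤ L ∧ (n + 1) * b (m + 1) ≤ (n + 2) * b m := by
  by_contra hc
  push Not at hc
  have key : ∀ m ≤ L, (n + 2 : ℝ) ^ m ≤ (n + 1 : ℝ) ^ m * b (m + 1) := by
    intro m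
    induction m with
    | zero =>
      intro _
      have : (1 : ℝ) ≤ b 1 := by exact_mod_cast hb1
      simpa using this
    | succ m ih =>
      intro hm
      have h1 := ih (by omega)
      have h2 : ((n + 2) * b (m + 1) : ℝ) < (n + 1) * b (m + 1 + 1) := by
        exact_mod_cast hc (m + 1) (by omega) hm
      calc (n + 2 : ℝ) ^ (m + 1) = (n + 2) * (n + 2) ^ m := by ring
        _ ≤ (n + 2) * ((n + 1) ^ m * b (m + 1)) := by gcongr
        _ = (n + 1) ^ m * ((n + 2) * b (m + 1)) := by ring
        _ ≤ (n + 1) ^ m * ((n + 1) * b (m + 1 + 1)) := by gcongr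
        _ = _ := by ring
  have h1 := key L le_rfl
  have h2 : Real.exp (L / (n + 2)) ≤ ((n + 2 : ℝ) / (n + 1)) ^ L := by
    have h3 : Real.exp (1 / (n + 2 : ℝ)) ≤ (n + 2) / (n + 1) := by
      have h4 := Real.add_one_le_exp (-(1 / (n + 2 : ℝ)))
      have hn2 : (0 : ℝ) < n + 2 := by positivity
      have hn1 : (0 : ℝ) < n + 1 := by positivity
      have h5 : (-(1 / (n + 2 : ℝ)) + 1) = (n + 1) / (n + 2) := by
        field_simp
        ring
      rw [h5, Real.exp_neg] at h4
      have h6 := inv_anti₀ (by positivity) h4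
      rwa [inv_inv, inv_div] at h6
    calc Real.exp (L / (n + 2)) = Real.exp (1 / (n + 2)) ^ L := by
          rw [← Real.exp_nat_mul]
          congr 1
          ring
      _ ≤ _ := pow_le_pow_left₀ (Real.exp_pos _).le h3 L
  have h3 : ((n + 2 : ℝ) / (n + 1)) ^ L ≤ b (L + 1) := by
    rw [div_pow, div_le_iff₀ (by positivity), mul_comm]
    exact h1
  linarith

end Pool.Agent.H342_Semi
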