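import Pool.Agent.H342_Semi.Folner
import Pool.Agent.H342_Gap.Basic

/-!
Cancellative semigroups with growth at most `exp(n^β)`, `β < 1/2`.
-/

set_option autoImplicit false

namespace Pool.Agent.H342_Semi

open Pool.Agent.H342_Gap

theorem pow_bound {β : ℝ} (h0 : 0 < β) (h1 : β < 1) {C : ℕ} (hC : 1 ≤ C) :
    ∃ C' : ℕ, 1 ≤ C' ∧ ∀ n : ℕ, 1 ≤ n → ∃ L : ℕ, 1 ≤ L ∧
      ((C * (L + 1) : ℕ) : ℝ) ^ β < L / (n + 2) ∧
      2 * ((C * L : ℕ) : ℝ) ^ β ≤ ((C' * n : ℕ) : ℝ) ^ (β / (1 - β)) := by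
  have hC1 : (1 : ℝ) ≤ C := by exact_mod_cast hC
  set K : ℝ := 3 * (2 * C) + 1 with hK
  have hKp : 0 < K := by positivity
  have hb : 0 < 1 - β := by linarith
  set γ : ℝ := β / (1 - β) with hγ
  have hγ0 : 0 < γ := div_pos h0 hb
  have h2C : ((2 * C : ℝ)) ^ β ≤ 2 * C := by
    calc ((2 * C : ℝ)) ^ β ≤ (2 * C : ℝ) ^ (1 : ℝ) :=
          Real.rpow_le_rpow_of_exponent_le (by linarith) h1.le
      _ = _ := Real.rpow_one _
  refine ⟨⌈(2 * (2 * C : ℝ)) ^ (1 / γ) * K⌉₊ + 1, Nat.le_add_left _ _, ?_⟩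
  intro n hn
  have hn1 : (1 : ℝ) ≤ n := by exact_mod_cast hn
  have hKn : 1 ≤ K * n := by nlinarith
  set T : ℝ := (K * n) ^ (1 / (1 - β)) with hT
  have hT1 : 1 ≤ T := Real.one_le_rpow hKn (by positivity)
  have hTL : T ≤ (⌈T⌉₊ : ℝ) := Nat.le_ceil T
  have hL1 : 1 ≤ ⌈T⌉₊ := Nat.one_le_iff_ne_zero.2 (by
    intro h
    rw [h] at hTL
    norm_num at hTL
    linarith)
  have hLT : (⌈T⌉₊ : ℝ) ≤ 2 * T := by
    have := Nat.ceil_lt_add_one (show 0 ≤ T by linarith)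
    linarith
  have hL1' : (1 : ℝ) ≤ (⌈T⌉₊ : ℝ) := by exact_mod_cast hL1
  refine ⟨⌈T⌉₊, hL1, ?_, ?_⟩
  · rw [lt_div_iff₀ (by positivity)]
    have e1 : ((C * (⌈T⌉₊ + 1) : ℕ) : ℝ) ≤ 2 * C * ⌈T⌉₊ := by
      push_cast
      nlinarith
    have e2 : ((C * (⌈T⌉₊ + 1) : ℕ) : ℝ) ^ β ≤ (2 * C) ^ β * (⌈T⌉₊ : ℝ) ^ β := by
      rw [← Real.mul_rpow (by positivity) (by positivity)]
      exact Real.rpow_le_rpow (by positivity) e1 h0.le
    have e3 : (⌈T⌉₊ : ℝ) = (⌈T⌉₊ : ℝ) ^ β * (⌈T⌉₊ : ℝ) ^ (1 - β) := by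
      rw [← Real.rpow_add (by positivity)]
      simp
    have e4 : K * n ≤ (⌈T⌉₊ : ℝ) ^ (1 - β) := by
      calc K * n = T ^ (1 - β) := by
            rw [hT, ← Real.rpow_mul (by positivity)]
            rw [one_div, inv_mul_cancel₀ hb.ne', Real.rpow_one]
        _ ≤ _ := Real.rpow_le_rpow (by positivity) hTL hb.le
    have e5 : (2 * C : ℝ) ^ β * (n + 2) < K * n := by
      calc (2 * C : ℝ) ^ β * (n + 2) ≤ (2 * C) * (3 * n) := by
            apply mul_le_mul h2C (by linarith) (by positivity) (by positivity)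
        _ < K * n := by
            rw [hK]
            nlinarith
    have e6 : 0 < (⌈T⌉₊ : ℝ) ^ β := Real.rpow_pos_of_pos (by positivity) _
    calc ((C * (⌈T⌉₊ + 1) : ℕ) : ℝ) ^ β * (n + 2) ≤ (2 * C) ^ β * (⌈T⌉₊ : ℝ) ^ β * (n + 2) := by
          gcongr
      _ = (⌈T⌉₊ : ℝ) ^ β * ((2 * C) ^ β * (n + 2)) := by ring
      _ < (⌈T⌉₊ : ℝ) ^ β * (K * n) := by gcongr
      _ ≤ (⌈T⌉₊ : ℝ) ^ β * (⌈T⌉₊ : ℝ) ^ (1 - β) := by gcongr
      _ = ⌈T⌉₊ := e3.symm
  · have e1 : ((C * ⌈T⌉₊ : ℕ) : ℝ) ^ β ≤ (2 * C) ^ β * T ^ β := by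
      rw [← Real.mul_rpow (by positivity) (by positivity)]
      apply Real.rpow_le_rpow (by positivity) _ h0.le
      push_cast
      nlinarith
    have e2 : T ^ β = (K * n) ^ γ := by
      rw [hT, ← Real.rpow_mul (by positivity), hγ]
      congr 1
      field_simp
    have e3 : 2 * (2 * C : ℝ) = (((2 * (2 * C : ℝ)) ^ (1 / γ))) ^ γ := by
      rw [← Real.rpow_mul (by positivity), one_div, inv_mul_cancel₀ hγ0.ne', Real.rpow_one]
    calc 2 * ((C * ⌈T⌉₊ : ℕ) : ℝ) ^ β ≤ 2 * ((2 * C) ^ β * T ^ β) := by gcongr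
      _ ≤ 2 * ((2 * C) * (K * n) ^ γ) := by
          rw [e2]
          gcongr
      _ = (2 * (2 * C)) * (K * n) ^ γ := by ring
      _ = ((2 * (2 * C : ℝ)) ^ (1 / γ)) ^ γ * (K * n) ^ γ := by rw [← e3]
      _ = ((2 * (2 * C : ℝ)) ^ (1 / γ) * (K * n)) ^ γ :=
          (Real.mul_rpow (by positivity) (by positivity)).symm
      _ ≤ _ := by
          apply Real.rpow_le_rpow (by positivity) _ hγ0.le
          push_cast
          have := Nat.le_ceil ((2 * (2 * C : ℝ)) ^ (1 / γ) * K)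
          calc (2 * (2 * C : ℝ)) ^ (1 / γ) * (K * n) = ((2 * (2 * C : ℝ)) ^ (1 / γ) * K) * n := by ring
            _ ≤ (⌈(2 * (2 * C : ℝ)) ^ (1 / γ) * K⌉₊ + 1) * n := by
              gcongr
              linarith

variable {S : Type} [Semigroup S]

theorem one_le_sgro [Nonempty S] {A : Set S} (hA : A.Finite) (hgen : Subsemigroup.closure A = ⊤)
    {n : ℕ} (hn : 1 ≤ n) : 1 ≤ sgro A n := by
  have hne : A.Nonempty := by
    by_contra h
    rw [Set.not_nonempty_iff_eq_empty] at h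
    subst h
    obtain ⟨x⟩ := ‹Nonempty S›
    obtain ⟨k, hk⟩ := exists_isProd hgen x
    induction hk with
    | one h => exact h
    | mul _ h => exact h
  obtain ⟨a, ha⟩ := hne
  unfold sgro
  exact (Set.ncard_pos (SBall_finite hA n)).2 ⟨a, 1, hn, .one ha⟩

theorem subExp_of_dom {A : Set S} {β : ℝ} (h0 : 0 < β) (h1 : β < 1) (h : Dom (sgro A) (expF β)) :
    SubExp (sgro A) := by
  obtain ⟨C, hC, h⟩ := h
  intro k
  -- choose `n` with `(C k (n+1))^β < n log 2`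
  have hl : 0 < Real.log 2 := Real.log_pos (by norm_num)
  have hlim : Filter.Tendsto (fun n : ℕ => (n : ℝ) ^ (1 - β)) Filter.atTop Filter.atTop :=
    (tendsto_rpow_atTop (by linarith)).comp tendsto_natCast_atTop_atTop
  obtain ⟨n, hn1, hn⟩ := ((hlim.eventually_gt_atTop ((2 * C * k : ℝ) ^ β / Real.log 2)).and
    (Filter.eventually_ge_atTop 1)).exists.imp fun n hn => (⟨hn.2, hn.1⟩ : 1 ≤ n ∧ _)
  refine ⟨n, ?_⟩
  have hn1' : (1 : ℝ) ≤ n := by exact_mod_cast hn1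
  have h2 := h (k * (n + 1))
  have h3 : (expF β (C * (k * (n + 1))) : ℝ) ≤ Real.exp (((C * (k * (n + 1)) : ℕ) : ℝ) ^ β) :=
    Nat.floor_le (Real.exp_pos _).le
  have h4 : ((C * (k * (n + 1)) : ℕ) : ℝ) ^ β < n * Real.log 2 := by
    rw [div_lt_iff₀ hl] at hn
    calc ((C * (k * (n + 1)) : ℕ) : ℝ) ^ β ≤ (2 * C * k * n) ^ β := by
          apply Real.rpow_le_rpow (by positivity) _ h0.le
          push_cast
          have : (0 : ℝ) ≤ C * k := by positivity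
          nlinarith
      _ = (2 * C * k) ^ β * (n : ℝ) ^ β := Real.mul_rpow (by positivity) (by positivity)
      _ < ((n : ℝ) ^ (1 - β) * Real.log 2) * (n : ℝ) ^ β := by
          have : 0 < (n : ℝ) ^ β := Real.rpow_pos_of_pos (by linarith) _
          gcongr
      _ = ((n : ℝ) ^ β * (n : ℝ) ^ (1 - β)) * Real.log 2 := by ring
      _ = n * Real.log 2 := by
          rw [← Real.rpow_add (by linarith)]
          simp
  have h5 : (sgro A (k * (n + 1)) : ℝ) < 2 ^ n := by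
    calc (sgro A (k * (n + 1)) : ℝ) ≤ expF β (C * (k * (n + 1))) := by exact_mod_cast h2
      _ ≤ _ := h3
      _ < Real.exp (n * Real.log 2) := Real.exp_lt_exp.2 h4
      _ = 2 ^ n := by
          rw [Real.exp_nat_mul, Real.exp_log (by norm_num)]
  exact_mod_cast h5

/-- the growth of a group containing `S` and generated by it -/
theorem dom_group {A : Set S} (hA : A.Finite) (h1A : ∀ n, 1 ≤ n → 1 ≤ sgro A n) {β : ℝ} (h0 : 0 < β)
    (h1 : β < 1) (h : Dom (sgro A) (expF β)) {G : Type} [Group G] {f : S → G}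
    (hf : Function.Injective f) (hmul : ∀ x y, f (x * y) = f x * f y) :
    Dom (gro (f '' A)) (expF (β / (1 - β))) := by
  obtain ⟨C, hC, h⟩ := h
  obtain ⟨C', hC', hL⟩ := pow_bound h0 h1 hC
  have hγ0 : 0 < β / (1 - β) := div_pos h0 (by linarith)
  refine ⟨C', hC', fun n => ?_⟩
  rcases Nat.eq_zero_or_pos n with hn | hn
  · subst hn
    rw [gro_zero]
    exact one_le_expF _ _
  obtain ⟨L, hL1, hL2, hL3⟩ := hL n hn
  have hb : ∀ m : ℕ, (sgro A m : ℝ) ≤ Real.exp (((C * m : ℕ) : ℝ) ^ β) := by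
    intro m
    have h3 : (expF β (C * m) : ℝ) ≤ Real.exp (((C * m : ℕ) : ℝ) ^ β) :=
      Nat.floor_le (Real.exp_pos _).le
    exact le_trans (by exact_mod_cast h m) h3
  obtain ⟨m, hm1, hm2, hm3⟩ := exists_scale (h1A 1 le_rfl) (n := n) (L := L)
    ((hb (L + 1)).trans_lt (Real.exp_lt_exp.2 hL2))
  have h2 := gro_le_sq hA hf hmul (h1A m hm1) hm3
  apply Nat.le_floor
  calc (gro (f '' A) n : ℝ) ≤ (sgro A m : ℝ) ^ 2 := by exact_mod_cast h2
    _ ≤ (sgro A L : ℝ) ^ 2 := by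
      have := sgro_mono hA hm2
      gcongr
    _ ≤ Real.exp (((C * L : ℕ) : ℝ) ^ β) ^ 2 := by
      have := hb L
      gcongr
    _ = Real.exp (2 * ((C * L : ℕ) : ℝ) ^ β) := by
      rw [← Real.exp_nat_mul]
      norm_num
    _ ≤ _ := Real.exp_le_exp.2 hL3

theorem gen_image [Nonempty S] {A : Set S} (hgen : Subsemigroup.closure A = ⊤) {G : Type} [Group G]
    {f : S → G} (hmul : ∀ x y, f (x * y) = f x * f y) (hG : ∀ g : G, ∃ s t : S, g = (f s)⁻¹ * f t) :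
    Subgroup.closure (f '' A) = ⊤ := by
  have h1 : ∀ x : S, f x ∈ Subgroup.closure (f '' A) := by
    intro x
    obtain ⟨k, hk⟩ := exists_isProd hgen x
    induction hk with
    | one h => exact Subgroup.subset_closure ⟨_, h, rfl⟩
    | mul _ h ih =>
      rw [hmul]
      exact Subgroup.mul_mem _ ih (Subgroup.subset_closure ⟨_, h, rfl⟩)
  rw [eq_top_iff]
  intro g _
  obtain ⟨s, t, rfl⟩ := hG g
  exact Subgroup.mul_mem _ (Subgroup.inv_mem _ (h1 s)) (h1 t)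

theorem sgro_le_gro {A : Set S} (hA : A.Finite) {G : Type} [Group G] {f : S → G}
    (hf : Function.Injective f) (hmul : ∀ x y, f (x * y) = f x * f y) (n : ℕ) :
    sgro A n ≤ gro (f '' A) n := by
  unfold sgro gro
  rw [← Set.ncard_image_of_injective _ hf]
  apply Set.ncard_le_ncard _ (Ball_finite (hA.image f) n)
  rintro _ ⟨x, ⟨k, hk, hx⟩, rfl⟩
  have : f x ∈ Ball (f '' A) k := by
    clear hk
    induction hx with
    | one h => exact ⟨[_], by simp, by simpa using Or.inl ⟨_, h, rfl⟩, by simp⟩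
    | @mul k x a _ h ih =>
      rw [hmul]
      refine mul_mem_Ball ih ⟨[f a], by simp, ?_, by simp⟩
      intro y hy
      rw [List.mem_singleton] at hy
      subst hy
      exact Or.inl ⟨_, h, rfl⟩
  exact Ball_mono _ hk this

end Pool.Agent.H342_Semi
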