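import Pool.Agent.H342_Gap.Defs

/-!
Finitely generated cancellative semigroups of subexponential growth satisfy the Ore condition and embed in
a group of fractions.
-/

set_option autoImplicit false

namespace Pool.Agent.H342_Semi

/-- `x` is a product of exactly `k` elements of `A` -/
inductive IsProd {S : Type} [Semigroup S] (A : Set S) : ℕ → S → Prop
  | one {a : S} : a ∈ A → IsProd A 1 a
  | mul {k : ℕ} {x a : S} : IsProd A k x → a ∈ A → IsProd A (k + 1) (x * a)

/-- the elements of `S` that are products of at most `n` elements of `A` -/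
def SBall {S : Type} [Semigroup S] (A : Set S) (n : ℕ) : Set S := {x | ∃ k ≤ n, IsProd A k x}

/-- the growth function of the semigroup `S` generated by `A` -/
noncomputable def sgro {S : Type} [Semigroup S] (A : Set S) (n : ℕ) : ℕ := (SBall A n).ncard

variable {S : Type} [Semigroup S]

theorem IsProd.pos {A : Set S} {k : ℕ} {x : S} (h : IsProd A k x) : 1 ≤ k := by
  cases h <;> omega

theorem IsProd.append {A : Set S} {k l : ℕ} {x y : S} (hx : IsProd A k x) (hy : IsProd A l y) :
    IsProd A (k + l) (x * y) := by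
  induction hy with
  | one ha => exact hx.mul ha
  | @mul l y a hy ha ih =>
    rw [← mul_assoc]
    exact ih.mul ha

theorem exists_isProd {A : Set S} (hA : Subsemigroup.closure A = ⊤) (x : S) : ∃ k, IsProd A k x := by
  have hx : x ∈ Subsemigroup.closure A := by rw [hA]; trivial
  induction hx using Subsemigroup.closure_induction with
  | mem x hx => exact ⟨1, .one hx⟩
  | mul x y _ _ hx hy =>
    obtain ⟨k, hk⟩ := hx
    obtain ⟨l, hl⟩ := hy
    exact ⟨k + l, hk.append hl⟩

theorem SBall_mono (A : Set S) {m n : ℕ} (h : m ≤ n) : SBall A m ⊆ SBall A n :=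
  fun _ ⟨k, hk, hx⟩ => ⟨k, hk.trans h, hx⟩

theorem SBall_zero (A : Set S) : SBall A 0 = ∅ := by
  ext x
  simp only [SBall, Set.mem_ofPred_eq, Set.mem_empty_iff_false, iff_false]
  rintro ⟨k, hk, hx⟩
  have := hx.pos
  omega

theorem SBall_succ_sub (A : Set S) (n : ℕ) :
    SBall A (n + 1) ⊆ A ∪ Set.image2 (· * ·) (SBall A n) A := by
  rintro x ⟨k, hk, hx⟩
  cases hx with
  | one ha => exact Or.inl ha
  | @mul k x a hx ha => exact Or.inr ⟨x, ⟨k, by omega, hx⟩, a, ha, rfl⟩

theorem SBall_finite {A : Set S} (hA : A.Finite) (n : ℕ) : (SBall A n).Finite := by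
  induction n with
  | zero => rw [SBall_zero]; exact Set.finite_empty
  | succ n ih => exact (hA.union (ih.image2 _ hA)).subset (SBall_succ_sub A n)

theorem sgro_mono {A : Set S} (hA : A.Finite) {m n : ℕ} (h : m ≤ n) : sgro A m ≤ sgro A n :=
  Set.ncard_le_ncard (SBall_mono A h) (SBall_finite hA n)

/-- the free semigroup argument -/
def fw (a b : S) : List Bool → S
  | [] => a
  | t :: l => fw a b l * (if t then a else b)

theorem fw_prod {A : Set S} {a b : S} {k : ℕ} (ha : ∃ i ≤ k, IsProd A i a) (hb : ∃ i ≤ k, IsProd A i b)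
    (l : List Bool) : ∃ i ≤ k * (l.length + 1), IsProd A i (fw a b l) := by
  induction l with
  | nil =>
    obtain ⟨i, hi, h⟩ := ha
    exact ⟨i, by simpa using hi, h⟩
  | cons t l ih =>
    obtain ⟨i, hi, h⟩ := ih
    have : ∃ j ≤ k, IsProd A j (if t then a else b) := by
      split_ifs
      · exact ha
      · exact hb
    obtain ⟨j, hj, h'⟩ := this
    refine ⟨i + j, ?_, h.append h'⟩
    rw [List.length_cons]
    calc i + j ≤ k * (l.length + 1) + k := by omega
      _ = _ := by ring

theorem fw_inj [IsCancelMul S] {a b : S} (h : ∀ x y : S, x * a ≠ y * b) (l l' : List Bool)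
    (hl : l.length = l'.length) (he : fw a b l = fw a b l') : l = l' := by
  induction l generalizing l' with
  | nil => exact (List.eq_nil_of_length_eq_zero hl.symm).symm
  | cons t l ih =>
    rcases l' with _ | ⟨t', l'⟩
    · simp at hl
    · simp only [List.length_cons, Nat.add_right_cancel_iff] at hl
      simp only [fw] at he
      cases t <;> cases t'
      · simp only [Bool.false_eq_true, if_false] at he
        rw [ih l' hl (mul_right_cancel he)]
      · simp only [Bool.false_eq_true, if_false, if_true] at he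
        exact absurd he.symm (h _ _)
      · simp only [Bool.false_eq_true, if_false, if_true] at he
        exact absurd he (h _ _)
      · simp only [if_true] at he
        rw [ih l' hl (mul_right_cancel he)]

/-- if two elements have no common left multiple then the growth is exponential -/
theorem two_pow_le_sgro [IsCancelMul S] {A : Set S} (hA : A.Finite) {a b : S} {k : ℕ}
    (ha : ∃ i ≤ k, IsProd A i a) (hb : ∃ i ≤ k, IsProd A i b) (h : ∀ x y : S, x * a ≠ y * b) (n : ℕ) :
    2 ^ n ≤ sgro A (k * (n + 1)) := by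
  have hfin := SBall_finite hA (k * (n + 1))
  have : Finite (SBall A (k * (n + 1))) := hfin
  let f : (List.Vector Bool n) → SBall A (k * (n + 1)) := fun l =>
    ⟨fw a b l.1, by
      have := fw_prod ha hb l.1
      rw [l.2] at this
      exact this⟩
  have hf : Function.Injective f := by
    intro l l' he
    have he' : fw a b l.1 = fw a b l'.1 := congrArg Subtype.val he
    exact Subtype.ext (fw_inj h l.1 l'.1 (by rw [l.2, l'.2]) he')
  have := Nat.card_le_card_of_injective f hf
  rw [Nat.card_eq_fintype_card, card_vector, Fintype.card_bool] at this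
  exact this

/-- the growth is subexponential -/
def SubExp (f : ℕ → ℕ) : Prop := ∀ k : ℕ, ∃ n : ℕ, f (k * (n + 1)) < 2 ^ n

theorem common_left_multiple [IsCancelMul S] {A : Set S} (hA : A.Finite)
    (hgen : Subsemigroup.closure A = ⊤) (hs : SubExp (sgro A)) (a b : S) : ∃ x y : S, x * a = y * b := by
  by_contra hc
  push Not at hc
  obtain ⟨i, hi⟩ := exists_isProd hgen a
  obtain ⟨j, hj⟩ := exists_isProd hgen b
  obtain ⟨n, hn⟩ := hs (max i j)
  have := two_pow_le_sgro hA ⟨i, le_max_left i j, hi⟩ ⟨j, le_max_right i j, hj⟩ hc n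
  omega

/-- Ore's theorem for cancellative semigroups -/
theorem ore_embed [Nonempty S] [IsCancelMul S] (h : ∀ a b : S, ∃ x y : S, x * a = y * b) :
    ∃ (G : Type) (_ : Group G) (f : S → G), Function.Injective f ∧ (∀ x y, f (x * y) = f x * f y) ∧
      ∀ g : G, ∃ s t : S, g = (f s)⁻¹ * f t := by
  classical
  obtain ⟨t0⟩ := ‹Nonempty S›
  have hkey : ∀ r : WithOne S, ∃ u : S, (t0 : WithOne S) * r = u := by
    intro r
    cases r with
    | one => exact ⟨t0, mul_one _⟩
    | coe x => exact ⟨t0 * x, (WithOne.coe_mul _ _).symm⟩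
  have hcl : ∀ (r₁ r₂ s : WithOne S), r₁ * s = r₂ * s → (t0 : WithOne S) * r₁ = t0 * r₂ := by
    intro r₁ r₂ s hs
    obtain ⟨u, hu⟩ := hkey r₁
    obtain ⟨v, hv⟩ := hkey r₂
    have h1 : (u : WithOne S) * s = v * s := by rw [← hu, ← hv, mul_assoc, mul_assoc, hs]
    rw [hu, hv]
    cases s with
    | one => simpa using h1
    | coe x =>
      rw [← WithOne.coe_mul, ← WithOne.coe_mul, WithOne.coe_inj] at h1
      rw [mul_right_cancel h1]
  have hore : ∀ (r s : WithOne S), ∃ x y : WithOne S, y * r = x * s := by
    intro r s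
    cases r with
    | one => exact ⟨1, s, by simp⟩
    | coe r =>
      cases s with
      | one => exact ⟨r, 1, by simp⟩
      | coe s =>
        obtain ⟨x, y, hxy⟩ := h r s
        exact ⟨y, x, by rw [← WithOne.coe_mul, ← WithOne.coe_mul, hxy]⟩
  choose nm dn hnd using hore
  let inst : OreLocalization.OreSet (⊤ : Submonoid (WithOne S)) :=
    { ore_right_cancel := fun r₁ r₂ s hs => ⟨⟨t0, trivial⟩, hcl r₁ r₂ s hs⟩
      oreNum := fun r s => nm r s
      oreDenom := fun r s => ⟨dn r s, trivial⟩
      ore_eq := fun r s => hnd r s }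
  let L := OreLocalization (⊤ : Submonoid (WithOne S)) (WithOne S)
  let f : S → Lˣ := fun s => OreLocalization.numeratorUnit ⟨(s : WithOne S), trivial⟩
  have hval : ∀ s : S, ((f s : Lˣ) : L) = OreLocalization.numeratorHom (s : WithOne S) := fun _ => rfl
  refine ⟨Lˣ, inferInstance, f, ?_, ?_, ?_⟩
  · intro x y hxy
    have h1 : OreLocalization.numeratorHom (S := (⊤ : Submonoid (WithOne S))) (x : WithOne S) =
        OreLocalization.numeratorHom (S := (⊤ : Submonoid (WithOne S))) (y : WithOne S) := by
      rw [← hval, ← hval, hxy]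
    simp only [OreLocalization.numeratorHom_apply] at h1
    rw [OreLocalization.oreDiv_eq_iff] at h1
    obtain ⟨u, v, h2, h3⟩ := h1
    simp only [OneMemClass.coe_one, mul_one] at h3
    have h5 : (u : WithOne S) * y = v * x := h2
    have h4 : v * (y : WithOne S) = v * x := by rw [← h5, h3]
    cases v with
    | one => simpa using h4.symm
    | coe v =>
      rw [← WithOne.coe_mul, ← WithOne.coe_mul, WithOne.coe_inj] at h4
      exact (mul_left_cancel h4).symm
  · intro x y
    apply Units.ext
    rw [Units.val_mul, hval, hval, hval, WithOne.coe_mul, map_mul]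
  · intro g
    have hg : ∃ x y : S, (g : L) =
        OreLocalization.oreDiv (x : WithOne S) (⟨y, trivial⟩ : (⊤ : Submonoid (WithOne S))) := by
      refine OreLocalization.ind (S := (⊤ : Submonoid (WithOne S)))
        (β := fun q : L => ∃ x y : S, q =
          OreLocalization.oreDiv (x : WithOne S) (⟨y, trivial⟩ : (⊤ : Submonoid (WithOne S))))
        (fun r s => ?_) (g : L)
      obtain ⟨x, hx⟩ := hkey r
      obtain ⟨y, hy⟩ := hkey s
      refine ⟨x, y, ?_⟩
      rw [OreLocalization.expand r s (t0 : WithOne S) trivial]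
      have e1 : (t0 : WithOne S) • r = x := hx
      have e2 : (⟨(t0 : WithOne S) * s, trivial⟩ : (⊤ : Submonoid (WithOne S))) = ⟨y, trivial⟩ :=
        Subtype.ext hy
      rw [e1, e2]
    obtain ⟨x, y, hxy⟩ := hg
    refine ⟨y, x, ?_⟩
    rw [eq_inv_mul_iff_mul_eq]
    apply Units.ext
    rw [Units.val_mul, hval, hval, hxy]
    exact OreLocalization.mul_cancel (s := (⟨y, trivial⟩ : (⊤ : Submonoid (WithOne S))))
      (t := 1) (r := (x : WithOne S))

end Pool.Agent.H342_Semi
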