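import Pool.Agent.H342_Semi.Folner
import Pool.Agent.H342_Gap.Basic

/-!
A lower bound for the growth of the semigroup generated by a finite subset of a group in terms of the
growth of the group generated by it.
-/

set_option autoImplicit false

namespace Pool.Agent.H342_Semi

open Pool.Agent.H342_Gap

variable {G : Type} [Group G]

/-- products of at most `n` elements of `A` -/
def PBall (A : Set G) (n : ℕ) : Set G := {g | ∃ l : List G, (∀ x ∈ l, x ∈ A) ∧ l.length ≤ n ∧ l.prod = g}

theorem PBall_sub (A : Set G) (n : ℕ) : PBall A n ⊆ Ball A n := by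
  rintro g ⟨l, h1, h2, h3⟩
  exact ⟨l, h2, fun x hx => Or.inl (h1 x hx), h3⟩

theorem PBall_finite {A : Set G} (hA : A.Finite) (n : ℕ) : (PBall A n).Finite :=
  (Ball_finite hA n).subset (PBall_sub A n)

theorem PBall_mono (A : Set G) {m n : ℕ} (h : m ≤ n) : PBall A m ⊆ PBall A n := by
  rintro g ⟨l, h1, h2, h3⟩
  exact ⟨l, h1, h2.trans h, h3⟩

theorem one_mem_PBall (A : Set G) (n : ℕ) : (1 : G) ∈ PBall A n := ⟨[], by simp, by simp, rfl⟩

theorem mul_mem_PBall {A : Set G} {n : ℕ} {g x : G} (hg : g ∈ PBall A n) (hx : x ∈ A) :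
    g * x ∈ PBall A (n + 1) := by
  obtain ⟨l, h1, h2, rfl⟩ := hg
  refine ⟨l ++ [x], ?_, ?_, by simp⟩
  · intro y hy
    rw [List.mem_append, List.mem_singleton] at hy
    rcases hy with hy | rfl
    · exact h1 y hy
    · exact hx
  · simpa using h2

theorem gro_le_pos {A : Set G} (hA : A.Finite) {m n : ℕ}
    (h : (n + 1) * (PBall A (m + 1)).ncard ≤ (n + 2) * (PBall A m).ncard) :
    gro A n ≤ (PBall A m).ncard ^ 2 := by
  classical
  have e1 := Set.ncard_eq_toFinset_card _ (PBall_finite hA m)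
  have e2 := Set.ncard_eq_toFinset_card _ (PBall_finite hA (m + 1))
  rw [e1, e2] at h
  rw [e1]
  refine gro_le_sq_set ⟨1, ?_⟩ ?_ ?_ h
  · rw [Set.Finite.mem_toFinset]
    exact one_mem_PBall A m
  · intro y hy
    rw [Set.Finite.mem_toFinset] at hy ⊢
    exact PBall_mono A (Nat.le_succ m) hy
  · intro x hx g hg
    rw [Set.Finite.mem_toFinset] at hg ⊢
    exact mul_mem_PBall hg hx

theorem one_le_PBall {A : Set G} (hA : A.Finite) (n : ℕ) : 1 ≤ (PBall A n).ncard :=
  (Set.ncard_pos (PBall_finite hA n)).2 ⟨1, one_mem_PBall A n⟩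

/-- **the fundamental inequality** -/
theorem pos_dichotomy {A : Set G} (hA : A.Finite) (n L : ℕ) :
    Real.exp (L / (n + 2)) ≤ (PBall A (L + 1)).ncard ∨ gro A n ≤ (PBall A L).ncard ^ 2 := by
  by_cases h : ((PBall A (L + 1)).ncard : ℝ) < Real.exp (L / (n + 2))
  · right
    obtain ⟨m, -, hm2, hm3⟩ := exists_scale (b := fun m => (PBall A m).ncard) (one_le_PBall hA 1) h
    have h1 := gro_le_pos hA hm3
    have h2 := Set.ncard_le_ncard (PBall_mono A hm2) (PBall_finite hA L)
    exact h1.trans (Nat.pow_le_pow_left h2 2)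
  · left
    exact not_lt.1 h

theorem pos_lower {A : Set G} (hA : A.Finite) {a c : ℝ} (ha0 : 0 < a) (hc : 0 < c)
    (h : ∀ n : ℕ, Real.exp (c * (n : ℝ) ^ a) ≤ gro A n) :
    ∃ δ : ℝ, 0 < δ ∧ ∀ n : ℕ, Real.exp (δ * (n : ℝ) ^ (a / (1 + a))) ≤ (PBall A n).ncard := by
  set θ : ℝ := a / (1 + a) with hθ
  have h1a : 0 < 1 + a := by linarith
  have hθ0 : 0 < θ := div_pos ha0 h1a
  have hθ1 : θ ≤ 1 := by
    rw [hθ, div_le_one h1a]
    linarith
  set δ0 : ℝ := min (1 / 4) (c / 2) with hδ0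
  have hδ0p : 0 < δ0 := by positivity
  -- the case of radius at least two
  have key : ∀ L : ℕ, 1 ≤ L → Real.exp (δ0 * (L : ℝ) ^ θ) ≤ (PBall A (L + 1)).ncard := by
    intro L hL
    have hL1 : (1 : ℝ) ≤ L := by exact_mod_cast hL
    set T : ℝ := (L : ℝ) ^ (1 / (1 + a)) with hT
    have hT1 : 1 ≤ T := Real.one_le_rpow hL1 (by positivity)
    have hTL : T ≤ (⌈T⌉₊ : ℝ) := Nat.le_ceil T
    have hLT := Nat.ceil_lt_add_one (show 0 ≤ T by linarith)
    have hLθ : 0 < (L : ℝ) ^ θ := Real.rpow_pos_of_pos (by linarith) _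
    rcases pos_dichotomy hA ⌈T⌉₊ L with h1 | h1
    · refine le_trans (Real.exp_le_exp.2 ?_) h1
      rw [le_div_iff₀ (by positivity)]
      have e1 : (L : ℝ) = (L : ℝ) ^ θ * T := by
        rw [hT, ← Real.rpow_add (by linarith), hθ]
        have : a / (1 + a) + 1 / (1 + a) = 1 := by
          field_simp
          ring
        rw [this, Real.rpow_one]
      have e2 : δ0 ≤ 1 / 4 := min_le_left _ _
      calc δ0 * (L : ℝ) ^ θ * (⌈T⌉₊ + 2) ≤ 1 / 4 * (L : ℝ) ^ θ * (4 * T) := by
            apply mul_le_mul _ (by linarith) (by positivity) (by positivity)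
            gcongr
        _ = (L : ℝ) ^ θ * T := by ring
        _ = L := e1.symm
    · have h2 := h ⌈T⌉₊
      have h3 : ((gro A ⌈T⌉₊ : ℕ) : ℝ) ≤ ((PBall A L).ncard : ℝ) ^ 2 := by exact_mod_cast h1
      have e1 : (L : ℝ) ^ θ ≤ (⌈T⌉₊ : ℝ) ^ a := by
        calc (L : ℝ) ^ θ = T ^ a := by
              rw [hT, ← Real.rpow_mul (by linarith), hθ]
              congr 1
              ring
          _ ≤ _ := Real.rpow_le_rpow (by positivity) hTL ha0.le
      have e2 : Real.exp (c / 2 * (L : ℝ) ^ θ) ^ 2 ≤ ((PBall A L).ncard : ℝ) ^ 2 := by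
        calc Real.exp (c / 2 * (L : ℝ) ^ θ) ^ 2 = Real.exp (c * (L : ℝ) ^ θ) := by
              rw [← Real.exp_nat_mul]
              congr 1
              push_cast
              ring
          _ ≤ Real.exp (c * (⌈T⌉₊ : ℝ) ^ a) := by
              apply Real.exp_le_exp.2
              gcongr
          _ ≤ _ := h2.trans h3
      have e3 : Real.exp (c / 2 * (L : ℝ) ^ θ) ≤ (PBall A L).ncard :=
        le_of_sq_le_sq e2 (by positivity)
      have e4 : δ0 ≤ c / 2 := min_le_right _ _
      calc Real.exp (δ0 * (L : ℝ) ^ θ) ≤ Real.exp (c / 2 * (L : ℝ) ^ θ) := by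
            apply Real.exp_le_exp.2
            gcongr
        _ ≤ (PBall A L).ncard := e3
        _ ≤ (PBall A (L + 1)).ncard := by
            exact_mod_cast Set.ncard_le_ncard (PBall_mono A (Nat.le_succ L)) (PBall_finite hA _)
  -- radius one
  have hone : 2 ≤ (PBall A 1).ncard := by
    by_contra hlt
    have h1 : (PBall A 1).ncard = 1 := by
      have := one_le_PBall hA 1
      omega
    have h2 : ∀ x ∈ A, x = 1 := by
      intro x hx
      obtain ⟨y, hy⟩ := Set.ncard_eq_one.1 h1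
      have hx1 : x ∈ PBall A 1 := ⟨[x], by simpa using hx, by simp, by simp⟩
      have h11 := one_mem_PBall A 1
      rw [hy] at hx1 h11
      rw [Set.mem_singleton_iff.1 hx1, Set.mem_singleton_iff.1 h11]
    have h3 : gro A 1 = 1 := by
      unfold gro
      rw [Set.ncard_eq_one]
      refine ⟨1, ?_⟩
      ext g
      simp only [Set.mem_singleton_iff]
      constructor
      · rintro ⟨l, -, hl, rfl⟩
        apply List.prod_eq_one
        intro x hx
        rcases hl x hx with h | h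
        · exact h2 x h
        · exact inv_eq_one.1 (h2 _ h)
      · rintro rfl
        exact one_mem_Ball A 1
    have h4 := h 1
    rw [h3] at h4
    have h5 : Real.exp (c * ((1 : ℕ) : ℝ) ^ a) > 1 := by
      rw [Nat.cast_one, Real.one_rpow, mul_one]
      exact Real.one_lt_exp_iff.2 hc
    push_cast at h4 h5
    linarith
  refine ⟨min (δ0 / 2) (1 / 2), by positivity, ?_⟩
  intro n
  rcases Nat.lt_or_ge n 2 with hn | hn
  · interval_cases n
    · rw [Nat.cast_zero, Real.zero_rpow hθ0.ne', mul_zero, Real.exp_zero]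
      exact_mod_cast one_le_PBall hA 0
    · rw [Nat.cast_one, Real.one_rpow, mul_one]
      calc Real.exp (min (δ0 / 2) (1 / 2)) ≤ Real.exp (1 / 2) := Real.exp_le_exp.2 (min_le_right _ _)
        _ ≤ 2 := by
            have h1 : Real.exp (1 / 2) ^ 2 ≤ 2 ^ 2 := by
              rw [← Real.exp_nat_mul]
              have := Real.exp_one_lt_d9
              norm_num
              linarith
            exact le_of_sq_le_sq h1 (by norm_num)
        _ ≤ (PBall A 1).ncard := by exact_mod_cast hone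
  · obtain ⟨L, rfl⟩ : ∃ L, n = L + 1 := ⟨n - 1, by omega⟩
    refine le_trans (Real.exp_le_exp.2 ?_) (key L (by omega))
    have hL1 : (1 : ℝ) ≤ L := by exact_mod_cast (show 1 ≤ L by omega)
    have e1 : ((L + 1 : ℕ) : ℝ) ^ θ ≤ 2 * (L : ℝ) ^ θ := by
      calc ((L + 1 : ℕ) : ℝ) ^ θ ≤ (2 * L : ℝ) ^ θ := by
            apply Real.rpow_le_rpow (by positivity) _ hθ0.le
            push_cast
            linarith
        _ = 2 ^ θ * (L : ℝ) ^ θ := Real.mul_rpow (by norm_num) (by positivity)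
        _ ≤ 2 * (L : ℝ) ^ θ := by
            gcongr
            calc (2 : ℝ) ^ θ ≤ 2 ^ (1 : ℝ) := Real.rpow_le_rpow_of_exponent_le (by norm_num) hθ1
              _ = 2 := Real.rpow_one _
    calc min (δ0 / 2) (1 / 2) * ((L + 1 : ℕ) : ℝ) ^ θ ≤ δ0 / 2 * (2 * (L : ℝ) ^ θ) := by
          apply mul_le_mul (min_le_left _ _) e1 (by positivity) (by positivity)
      _ = δ0 * (L : ℝ) ^ θ := by ring

end Pool.Agent.H342_Semi
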